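import Mathlib

set_option autoImplicit false

namespace Pool.Agent.Results.MP_6c91b3_co.AdjacentDegreeTwo

open Finset

/-- `G` has exactly half of its vertices of degree `2` and the other half of degree `3`. -/
def InD23 {n : ℕ} (G : SimpleGraph (Fin n)) : Prop :=
  2 * {v | (G.neighborSet v).ncard = 2}.ncard = n ∧ 2 * {v | (G.neighborSet v).ncard = 3}.ncard = n

/-- `G` is extremal for `g`: it lies in `D23`, has girth `g`, and no graph of `D23` with girth `g`
has fewer vertices. -/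
def Extremal (g : ℕ) {n : ℕ} (G : SimpleGraph (Fin n)) : Prop :=
  InD23 G ∧ G.girth = g ∧ ∀ (m : ℕ) (H : SimpleGraph (Fin m)), InD23 H → H.girth = g → n ≤ m

/-- Some edge of `G` has both endpoints of degree `2`. -/
def HasEdge22 {n : ℕ} (G : SimpleGraph (Fin n)) : Prop :=
  ∃ u v : Fin n, G.Adj u v ∧ (G.neighborSet u).ncard = 2 ∧ (G.neighborSet v).ncard = 2

section cycles

variable {V : Type} {G : SimpleGraph V}

lemma cyc3 {x y z : V} (h1 : G.Adj x y) (h2 : G.Adj y z) (h3 : G.Adj z x) : G.egirth ≤ 3 := by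
  have : (SimpleGraph.Walk.cons h1 (.cons h2 (.cons h3 .nil))).IsCycle := by
    rw [SimpleGraph.Walk.cons_isCycle_iff]
    have := h1.ne; have := h2.ne; have := h3.ne
    refine ⟨?_, ?_⟩
    · simp [SimpleGraph.Walk.cons_isPath_iff]; grind
    · simp; grind
  exact SimpleGraph.egirth_le_length this

lemma cyc4 {x y z w : V} (h1 : G.Adj x y) (h2 : G.Adj y z) (h3 : G.Adj z w) (h4 : G.Adj w x)
    (h5 : x ≠ z) (h6 : y ≠ w) : G.egirth ≤ 4 := by
  have : (SimpleGraph.Walk.cons h1 (.cons h2 (.cons h3 (.cons h4 .nil)))).IsCycle := by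
    rw [SimpleGraph.Walk.cons_isCycle_iff]
    have := h1.ne; have := h2.ne; have := h3.ne; have := h4.ne
    refine ⟨?_, ?_⟩
    · simp [SimpleGraph.Walk.cons_isPath_iff]; grind
    · simp; grind
  exact SimpleGraph.egirth_le_length this

lemma cyc5 {x y z w t : V} (h1 : G.Adj x y) (h2 : G.Adj y z) (h3 : G.Adj z w) (h4 : G.Adj w t)
    (h5 : G.Adj t x) : G.egirth ≤ 5 := by
  by_cases hd : x ≠ z ∧ y ≠ w ∧ z ≠ t ∧ w ≠ x ∧ t ≠ y
  · obtain ⟨a1, a2, a3, a4, a5⟩ := hd
    have : (SimpleGraph.Walk.cons h1 (.cons h2 (.cons h3 (.cons h4 (.cons h5 .nil))))).IsCycle := by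
      rw [SimpleGraph.Walk.cons_isCycle_iff]
      have := h1.ne; have := h2.ne; have := h3.ne; have := h4.ne; have := h5.ne
      refine ⟨?_, ?_⟩
      · simp [SimpleGraph.Walk.cons_isPath_iff]; grind
      · simp; grind
    exact SimpleGraph.egirth_le_length this
  · have h3 : G.egirth ≤ 3 := by
      by_cases a1 : x = z
      · subst a1; exact cyc3 h3 h4 h5
      by_cases a2 : y = w
      · subst a2; exact cyc3 h4 h5 h1
      by_cases a3 : z = t
      · subst a3; exact cyc3 h5 h1 h2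
      by_cases a4 : w = x
      · subst a4; exact cyc3 h1 h2 h3
      by_cases a5 : t = y
      · subst a5; exact cyc3 h2 h3 h4
      exact absurd ⟨a1, a2, a3, a4, a5⟩ hd
    exact h3.trans (by norm_num)

lemma cyc6 {x y z w t s : V} (h1 : G.Adj x y) (h2 : G.Adj y z) (h3 : G.Adj z w) (h4 : G.Adj w t)
    (h5 : G.Adj t s) (h6 : G.Adj s x) (hn : [x, y, z, w, t, s].Nodup) : G.egirth ≤ 6 := by
  have : (SimpleGraph.Walk.cons h1 (.cons h2 (.cons h3 (.cons h4 (.cons h5 (.cons h6 .nil)))))).IsCycle := by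
    rw [SimpleGraph.Walk.cons_isCycle_iff]
    simp at hn
    refine ⟨?_, ?_⟩
    · simp [SimpleGraph.Walk.cons_isPath_iff]; grind
    · simp; grind
  exact SimpleGraph.egirth_le_length this

lemma four_le (h3 : ∀ x y z : V, G.Adj x y → G.Adj y z → G.Adj z x → False) : 4 ≤ G.egirth := by
  rw [show (4 : ℕ∞) = ((4 : ℕ) : ℕ∞) from rfl, SimpleGraph.le_egirth]
  intro a w hw
  have h := hw.three_le_length
  by_contra hcon
  have hlen : w.length = 3 := by
    have : w.length < 4 := by exact_mod_cast not_le.mp hcon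
    omega
  match w, hlen with
  | .cons h1 (.cons h2 (.cons h4 .nil)), _ => exact h3 _ _ _ h1 h2 h4

lemma odd3 : ∀ a b c : Bool, a ≠ b → b ≠ c → c ≠ a → False := by decide

lemma odd5 : ∀ a b c d e : Bool, a ≠ b → b ≠ c → c ≠ d → d ≠ e → e ≠ a → False := by
  intro a b c d e
  cases a <;> cases b <;> cases c <;> cases d <;> cases e <;> simp

lemma six_le (col : V → Bool) (hc : ∀ x y, G.Adj x y → col x ≠ col y)
    (h4 : ∀ x y z w : V, G.Adj x y → G.Adj y z → x ≠ z → G.Adj z w → G.Adj w x → y = w) :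
    6 ≤ G.egirth := by
  rw [show (6 : ℕ∞) = ((6 : ℕ) : ℕ∞) from rfl, SimpleGraph.le_egirth]
  intro a w hw
  have h := hw.three_le_length
  by_contra hcon
  have hlen : w.length = 3 ∨ w.length = 4 ∨ w.length = 5 := by
    have : w.length < 6 := by exact_mod_cast not_le.mp hcon
    omega
  rcases hlen with hlen | hlen | hlen
  · match w, hlen with
    | .cons h1 (.cons h2 (.cons h5 .nil)), _ =>
      exact odd3 _ _ _ (hc _ _ h1) (hc _ _ h2) (hc _ _ h5)
  · match w, hlen with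
    | .cons (v := y) h1 (.cons (v := z) h2 (.cons (v := t) h5 (.cons h6 .nil))), _ =>
      rw [SimpleGraph.Walk.cons_isCycle_iff] at hw
      simp only [SimpleGraph.Walk.cons_isPath_iff, SimpleGraph.Walk.support_cons,
        SimpleGraph.Walk.support_nil, SimpleGraph.Walk.isPath_iff_eq_nil, List.mem_cons,
        List.not_mem_nil, or_false, not_or] at hw
      have hne : a ≠ z := fun h => hw.1.1.2.2 h.symm
      exact hw.1.2.2.1 (h4 _ _ _ _ h1 h2 hne h5 h6)
  · match w, hlen with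
    | .cons h1 (.cons h2 (.cons h5 (.cons h6 (.cons h7 .nil)))), _ =>
      exact odd5 _ _ _ _ _ (hc _ _ h1) (hc _ _ h2) (hc _ _ h5) (hc _ _ h6) (hc _ _ h7)

end cycles

/-! ### Lower bounds -/

section lower

lemma ncard_nb {V : Type} [Fintype V] (G : SimpleGraph V) [DecidableRel G.Adj] (v : V) :
    (G.neighborSet v).ncard = G.degree v := by
  rw [← SimpleGraph.card_neighborSet_eq_degree, ← Nat.card_eq_fintype_card]
  rfl

variable {m : ℕ} {H : SimpleGraph (Fin m)}

open Classical in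
lemma D23_facts (h : InD23 H) : ∃ k : ℕ, m = 2 * (2 * k) ∧
    (univ.filter (fun v => H.degree v = 2)).card = 2 * k ∧
    (univ.filter (fun v => H.degree v = 3)).card = 2 * k ∧
    (∀ v, H.degree v = 2 ∨ H.degree v = 3) := by
  have hnc : ∀ v, (H.neighborSet v).ncard = H.degree v := by
    intro v
    exact ncard_nb H v
  have hset : ∀ j : ℕ, {v | (H.neighborSet v).ncard = j}.ncard = (univ.filter (fun v => H.degree v = j)).card := by
    intro j
    rw [← Set.ncard_coe_finset]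
    congr 1
    ext v
    simp [hnc]
  obtain ⟨h2, h3⟩ := h
  rw [hset] at h2 h3
  set A := univ.filter (fun v => H.degree v = 2) with hA
  set B := univ.filter (fun v => H.degree v = 3) with hB
  have hdisj : Disjoint A B := by
    rw [Finset.disjoint_left]
    intro v hv hv'
    rw [hA, mem_filter] at hv
    rw [hB, mem_filter] at hv'
    omega
  have hun : A ∪ B = univ := by
    apply Finset.eq_univ_of_card
    rw [Finset.card_union_of_disjoint hdisj, Fintype.card_fin]
    omega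
  have hall : ∀ v, H.degree v = 2 ∨ H.degree v = 3 := by
    intro v
    have : v ∈ A ∪ B := by rw [hun]; exact mem_univ v
    rw [mem_union, hA, hB, mem_filter, mem_filter] at this
    tauto
  have hsum : ∑ v, H.degree v = 2 * A.card + 3 * B.card := by
    rw [← hun, Finset.sum_union hdisj]
    congr 1
    · rw [Finset.sum_congr rfl (fun v hv => (mem_filter.mp hv).2), Finset.sum_const, smul_eq_mul, mul_comm]
    · rw [Finset.sum_congr rfl (fun v hv => (mem_filter.mp hv).2), Finset.sum_const, smul_eq_mul, mul_comm]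
  have heven := H.sum_degrees_eq_twice_card_edges
  rw [hsum] at heven
  refine ⟨A.card / 2, ?_, ?_, ?_, hall⟩ <;> omega

/-- a graph of finite positive girth has a vertex -/
lemma pos_of_girth {g : ℕ} (hg : 0 < g) (h : H.girth = g) : 0 < m := by
  rcases Nat.eq_zero_or_pos m with h0 | h0
  · subst h0
    exfalso
    have : H.IsAcyclic := by
      intro v
      exact v.elim0
    rw [← SimpleGraph.egirth_eq_top] at this
    rw [SimpleGraph.girth, this] at h
    simp at h
    omega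
  · exact h0

lemma egirth_of_girth {g : ℕ} (hg : 0 < g) (h : H.girth = g) : H.egirth = g := by
  unfold SimpleGraph.girth at h
  rcases eq_or_ne H.egirth ⊤ with h' | h'
  · rw [h'] at h
    simp at h
    omega
  · rw [← h, ENat.coe_toNat h']

open Classical in
/-- there are two adjacent vertices of degree `3` -/
lemma adj33 (h : InD23 H) (hm : 0 < m) : ∃ u v, H.Adj u v ∧ H.degree u = 3 ∧ H.degree v = 3 := by
  obtain ⟨k, hk, hA, hB, hall⟩ := D23_facts h
  by_contra hcon
  push Not at hcon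
  set A := univ.filter (fun v => H.degree v = 2) with hAdef
  set B := univ.filter (fun v => H.degree v = 3) with hBdef
  have h1 : ∀ b ∈ B, ∑ a ∈ A, (if H.Adj b a then 1 else 0) = 3 := by
    intro b hb
    rw [hBdef, mem_filter] at hb
    rw [← hb.2, ← SimpleGraph.card_neighborFinset_eq_degree, Finset.sum_boole, Nat.cast_id]
    congr 1
    ext x
    rw [mem_filter, SimpleGraph.mem_neighborFinset, hAdef, mem_filter]
    constructor
    · rintro ⟨_, h⟩; exact h
    · intro h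
      refine ⟨⟨mem_univ _, ?_⟩, h⟩
      rcases hall x with hx | hx
      · exact hx
      · exact absurd hx (hcon b x h hb.2)
  have h2 : ∀ a ∈ A, ∑ b ∈ B, (if H.Adj b a then 1 else 0) ≤ 2 := by
    intro a ha
    rw [hAdef, mem_filter] at ha
    rw [← ha.2, ← SimpleGraph.card_neighborFinset_eq_degree, Finset.sum_boole, Nat.cast_id]
    apply Finset.card_le_card
    intro x hx
    rw [mem_filter] at hx
    rw [SimpleGraph.mem_neighborFinset]
    exact hx.2.symm
  have h3 : ∑ b ∈ B, ∑ a ∈ A, (if H.Adj b a then 1 else 0) = B.card * 3 := by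
    rw [Finset.sum_congr rfl h1, Finset.sum_const, smul_eq_mul]
  have h4 : ∑ a ∈ A, ∑ b ∈ B, (if H.Adj b a then 1 else 0) ≤ A.card * 2 := by
    rw [← smul_eq_mul]
    exact Finset.sum_le_card_nsmul _ _ _ h2
  rw [Finset.sum_comm] at h4
  rw [h3, hA, hB] at h4
  omega

open Classical in
lemma lower4 (h : InD23 H) (hg : H.girth = 4) : 8 ≤ m := by
  have hm := pos_of_girth (by norm_num) hg
  have he := egirth_of_girth (by norm_num) hg
  obtain ⟨k, hk, hA, hB, hall⟩ := D23_facts h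
  by_contra hcon
  have hk1 : k = 1 := by omega
  subst hk1
  have hm4 : m = 4 := by omega
  subst hm4
  obtain ⟨u, v, huv, hu, hv⟩ := adj33 h hm
  have huniv : ∀ x : Fin 4, H.degree x = 3 → ∀ y, y ≠ x → H.Adj x y := by
    intro x hx y hy
    have h1 : H.neighborFinset x = univ.erase x := by
      apply Finset.eq_of_subset_of_card_le
      · intro z hz
        rw [SimpleGraph.mem_neighborFinset] at hz
        exact Finset.mem_erase.mpr ⟨hz.ne.symm, mem_univ _⟩
      · rw [SimpleGraph.card_neighborFinset_eq_degree, hx, Finset.card_erase_of_mem (mem_univ _)]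
        simp
    rw [← SimpleGraph.mem_neighborFinset, h1]
    exact Finset.mem_erase.mpr ⟨hy, mem_univ _⟩
  obtain ⟨w, hw⟩ : ∃ w : Fin 4, w ∉ ({u, v} : Finset (Fin 4)) := by
    by_contra hh
    push Not at hh
    have h1 : (univ : Finset (Fin 4)) ⊆ {u, v} := fun x _ => hh x
    have h2 := Finset.card_le_card h1
    have h3 := Finset.card_le_two (a := u) (b := v)
    simp at h2
    omega
  simp only [mem_insert, mem_singleton, not_or] at hw
  have h3 := cyc3 huv (huniv v hv w hw.2) (huniv u hu w hw.1).symm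
  rw [he] at h3
  exact absurd h3 (by norm_num)

open Classical in
lemma lower6 (h : InD23 H) (hg : H.girth = 6) : 12 ≤ m := by
  have hm := pos_of_girth (by norm_num) hg
  have he := egirth_of_girth (by norm_num) hg
  obtain ⟨k, hk, hA, hB, hall⟩ := D23_facts h
  have n3 : ∀ x y z, H.Adj x y → H.Adj y z → H.Adj z x → False := by
    intro x y z h1 h2 h3
    have := cyc3 h1 h2 h3
    rw [he] at this
    exact absurd this (by norm_num)
  have n4 : ∀ x y z w, H.Adj x y → H.Adj y z → H.Adj z w → H.Adj w x → x ≠ z → y ≠ w → False := by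
    intro x y z w h1 h2 h3 h4 h5 h6
    have := cyc4 h1 h2 h3 h4 h5 h6
    rw [he] at this
    exact absurd this (by norm_num)
  have n5 : ∀ x y z w t, H.Adj x y → H.Adj y z → H.Adj z w → H.Adj w t → H.Adj t x → False := by
    intro x y z w t h1 h2 h3 h4 h5
    have := cyc5 h1 h2 h3 h4 h5
    rw [he] at this
    exact absurd this (by norm_num)
  obtain ⟨u, v, huv, hu, hv⟩ := adj33 h hm
  have two : ∀ x y, H.Adj x y → H.degree x = 3 →
      ∃ a b, a ≠ b ∧ a ≠ y ∧ b ≠ y ∧ H.Adj x a ∧ H.Adj x b := by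
    intro x y hxy hx
    have h1 : 1 < ((H.neighborFinset x).erase y).card := by
      rw [Finset.card_erase_of_mem (by rwa [SimpleGraph.mem_neighborFinset]),
        SimpleGraph.card_neighborFinset_eq_degree, hx]
      norm_num
    obtain ⟨a, ha, b, hb, hab⟩ := Finset.one_lt_card.mp h1
    rw [Finset.mem_erase, SimpleGraph.mem_neighborFinset] at ha hb
    exact ⟨a, b, hab, ha.1, hb.1, ha.2, hb.2⟩
  have one : ∀ x y, H.Adj x y → ∃ a, a ≠ y ∧ H.Adj x a := by
    intro x y hxy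
    have h1 : 0 < ((H.neighborFinset x).erase y).card := by
      rw [Finset.card_erase_of_mem (by rwa [SimpleGraph.mem_neighborFinset]),
        SimpleGraph.card_neighborFinset_eq_degree]
      rcases hall x with hx | hx <;> rw [hx] <;> norm_num
    obtain ⟨a, ha⟩ := Finset.card_pos.mp h1
    rw [Finset.mem_erase, SimpleGraph.mem_neighborFinset] at ha
    exact ⟨a, ha.1, ha.2⟩
  obtain ⟨a1, a2, ha12, ha1v, ha2v, hua1, hua2⟩ := two u v huv hu
  obtain ⟨b1, b2, hb12, hb1u, hb2u, hvb1, hvb2⟩ := two v u huv.symm hv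
  obtain ⟨c1, hc1u, hac1⟩ := one a1 u hua1.symm
  obtain ⟨c2, hc2u, hac2⟩ := one a2 u hua2.symm
  obtain ⟨d1, hd1v, hbd1⟩ := one b1 v hvb1.symm
  obtain ⟨d2, hd2v, hbd2⟩ := one b2 v hvb2.symm
  have ab : ∀ a b, H.Adj u a → H.Adj v b → a ≠ b := by
    rintro a _ h1 h2 rfl
    exact n3 _ _ _ huv h2 h1.symm
  have ud : ∀ b d, H.Adj v b → H.Adj b d → b ≠ u → u ≠ d := by
    rintro b _ h1 h2 _ rfl
    exact n3 _ _ _ huv h1 h2
  have vc : ∀ a c, H.Adj u a → H.Adj a c → a ≠ v → v ≠ c := by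
    rintro b _ h1 h2 _ rfl
    exact n3 _ _ _ huv.symm h1 h2
  have ac : ∀ a a' c, H.Adj u a → H.Adj u a' → H.Adj a c → a' ≠ c := by
    rintro a _ c h1 h2 h3 rfl
    exact n3 _ _ _ h1 h3 h2.symm
  have bd : ∀ a a' c, H.Adj v a → H.Adj v a' → H.Adj a c → a' ≠ c := by
    rintro a _ c h1 h2 h3 rfl
    exact n3 _ _ _ h1 h3 h2.symm
  have ad : ∀ a b d, H.Adj u a → H.Adj v b → H.Adj b d → b ≠ u → a ≠ v → a ≠ d := by
    rintro a b _ h1 h2 h3 h4 h5 rfl
    exact n4 _ _ _ _ h1 h3.symm h2.symm huv.symm (Ne.symm h4) h5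
  have bc : ∀ a b c, H.Adj u a → H.Adj v b → H.Adj a c → b ≠ u → a ≠ v → b ≠ c := by
    rintro a b _ h1 h2 h3 h4 h5 rfl
    exact n4 _ _ _ _ h1 h3 h2.symm huv.symm (Ne.symm h4) h5
  have cc : c1 ≠ c2 := by
    rintro rfl
    exact n4 _ _ _ _ hua1 hac1 hac2.symm hua2.symm (Ne.symm hc1u) ha12
  have dd : d1 ≠ d2 := by
    rintro rfl
    exact n4 _ _ _ _ hvb1 hbd1 hbd2.symm hvb2.symm (Ne.symm hd1v) hb12
  have cd : ∀ a b c d, H.Adj u a → H.Adj v b → H.Adj a c → H.Adj b d → c ≠ d := by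
    rintro a b c _ h1 h2 h3 h4 rfl
    exact n5 _ _ _ _ _ h1 h3 h4.symm h2.symm huv.symm
  have hnodup : [u, v, a1, a2, b1, b2, c1, c2, d1, d2].Nodup := by
    simp only [List.nodup_cons, List.mem_cons, List.not_mem_nil, or_false, not_or,
      not_false_eq_true, List.nodup_nil, and_true]
    refine ⟨⟨huv.ne, hua1.ne, hua2.ne, hb1u.symm, hb2u.symm, hc1u.symm, hc2u.symm,
      ud _ _ hvb1 hbd1 hb1u, ud _ _ hvb2 hbd2 hb2u⟩,
      ⟨ha1v.symm, ha2v.symm, hvb1.ne, hvb2.ne, vc _ _ hua1 hac1 ha1v, vc _ _ hua2 hac2 ha2v,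
        hd1v.symm, hd2v.symm⟩,
      ⟨ha12, ab _ _ hua1 hvb1, ab _ _ hua1 hvb2, hac1.ne, ac _ _ _ hua2 hua1 hac2,
        ad _ _ _ hua1 hvb1 hbd1 hb1u ha1v, ad _ _ _ hua1 hvb2 hbd2 hb2u ha1v⟩,
      ⟨ab _ _ hua2 hvb1, ab _ _ hua2 hvb2, ac _ _ _ hua1 hua2 hac1, hac2.ne,
        ad _ _ _ hua2 hvb1 hbd1 hb1u ha2v, ad _ _ _ hua2 hvb2 hbd2 hb2u ha2v⟩,
      ⟨hb12, bc _ _ _ hua1 hvb1 hac1 hb1u ha1v, bc _ _ _ hua2 hvb1 hac2 hb1u ha2v, hbd1.ne,
        bd _ _ _ hvb2 hvb1 hbd2⟩,
      ⟨bc _ _ _ hua1 hvb2 hac1 hb2u ha1v, bc _ _ _ hua2 hvb2 hac2 hb2u ha2v,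
        bd _ _ _ hvb1 hvb2 hbd1, hbd2.ne⟩,
      ⟨cc, cd _ _ _ _ hua1 hvb1 hac1 hbd1, cd _ _ _ _ hua1 hvb2 hac1 hbd2⟩,
      ⟨cd _ _ _ _ hua2 hvb1 hac2 hbd1, cd _ _ _ _ hua2 hvb2 hac2 hbd2⟩, dd⟩
  have hlen := hnodup.length_le_card
  simp at hlen
  omega

end lower

/-! ### The two graphs -/

/-- `K_4` with one edge subdivided twice and two further edges subdivided once. -/
def nb8 : Fin 8 → List (Fin 8)
  | 0 => [4, 6, 3]
  | 1 => [5, 2, 3]
  | 2 => [6, 1, 7]
  | 3 => [0, 1, 7]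
  | 4 => [0, 5]
  | 5 => [4, 1]
  | 6 => [0, 2]
  | 7 => [2, 3]

/-- `K_{3,3}` with each edge of a perfect matching subdivided twice. -/
def nb12 : Fin 12 → List (Fin 12)
  | 0 => [4, 5, 6]
  | 1 => [3, 5, 7]
  | 2 => [3, 4, 8]
  | 3 => [1, 2, 9]
  | 4 => [0, 2, 10]
  | 5 => [0, 1, 11]
  | 6 => [0, 9]
  | 7 => [1, 10]
  | 8 => [2, 11]
  | 9 => [3, 6]
  | 10 => [4, 7]
  | 11 => [5, 8]

def G8 : SimpleGraph (Fin 8) where
  Adj x y := y ∈ nb8 x
  symm := ⟨by decide⟩
  loopless := ⟨by decide⟩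

def G12 : SimpleGraph (Fin 12) where
  Adj x y := y ∈ nb12 x
  symm := ⟨by decide⟩
  loopless := ⟨by decide⟩

instance : DecidableRel G8.Adj := fun x y => inferInstanceAs (Decidable (y ∈ nb8 x))
instance : DecidableRel G12.Adj := fun x y => inferInstanceAs (Decidable (y ∈ nb12 x))

lemma ncard8 (v : Fin 8) : (G8.neighborSet v).ncard = G8.degree v := ncard_nb G8 v

lemma ncard12 (v : Fin 12) : (G12.neighborSet v).ncard = G12.degree v := ncard_nb G12 v

lemma in8 : InD23 G8 := by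
  have h : ∀ j : ℕ, {v | (G8.neighborSet v).ncard = j} = ((univ.filter (fun v => G8.degree v = j) : Finset (Fin 8)) : Set (Fin 8)) := by
    intro j; ext v; simp [ncard8]
  unfold InD23
  rw [h, h, Set.ncard_coe_finset, Set.ncard_coe_finset]
  decide

lemma in12 : InD23 G12 := by
  have h : ∀ j : ℕ, {v | (G12.neighborSet v).ncard = j} = ((univ.filter (fun v => G12.degree v = j) : Finset (Fin 12)) : Set (Fin 12)) := by
    intro j; ext v; simp [ncard12]
  unfold InD23
  rw [h, h, Set.ncard_coe_finset, Set.ncard_coe_finset]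
  decide

lemma girth8 : G8.girth = 4 := by
  have h1 : G8.egirth ≤ 4 := cyc4 (x := 1) (y := 2) (z := 7) (w := 3) (by decide) (by decide)
    (by decide) (by decide) (by decide) (by decide)
  have h2 : 4 ≤ G8.egirth := four_le (by decide)
  rw [SimpleGraph.girth, le_antisymm h1 h2]
  rfl

lemma girth12 : G12.girth = 6 := by
  have h1 : G12.egirth ≤ 6 := cyc6 (x := 0) (y := 4) (z := 2) (w := 3) (t := 9) (s := 6) (by decide)
    (by decide) (by decide) (by decide) (by decide) (by decide) (by decide)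
  have h2 : 6 ≤ G12.egirth := six_le
    (fun x => decide (x = 0 ∨ x = 1 ∨ x = 2 ∨ x = 9 ∨ x = 10 ∨ x = 11)) (by decide) (by decide +kernel)
  rw [SimpleGraph.girth, le_antisymm h1 h2]
  rfl

/-- **Q1 is false**: for `g = 4` and for `g = 6` there is an extremal graph with an edge both of whose
endpoints have degree `2`. -/
theorem result :
    (∀ g : ℕ, g = 4 ∨ g = 6 → ∃ (n : ℕ) (G : SimpleGraph (Fin n)), Extremal g G ∧ HasEdge22 G) ∧
    ¬ (∀ g : ℕ, 3 ≤ g → ∀ (n : ℕ) (G : SimpleGraph (Fin n)), Extremal g G → ¬ HasEdge22 G) := by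
  have h8 : Extremal 4 G8 ∧ HasEdge22 G8 := by
    refine ⟨⟨in8, girth8, fun m H h1 h2 => lower4 h1 h2⟩, 4, 5, by decide, ?_, ?_⟩
    · rw [ncard8]; decide
    · rw [ncard8]; decide
  have h12 : Extremal 6 G12 ∧ HasEdge22 G12 := by
    refine ⟨⟨in12, girth12, fun m H h1 h2 => lower6 h1 h2⟩, 6, 9, by decide, ?_, ?_⟩
    · rw [ncard12]; decide
    · rw [ncard12]; decide
  refine ⟨?_, fun h => h 4 (by norm_num) 8 G8 h8.1 h8.2⟩
  rintro g (rfl | rfl)
  · exact ⟨8, G8, h8⟩
  · exact ⟨12, G12, h12⟩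

end Pool.Agent.Results.MP_6c91b3_co.AdjacentDegreeTwo
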